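import Pool.Agent.Helper93.TLE.StB
import Pool.Agent.Helper14.CV.StB

/-!
# Project TL, module BS5: level 25
-/

set_option autoImplicit false

namespace Pool.Agent.Helper16.TLE

open Pool.Agent.Helper14.CV (Homog EqC act Tl StFar StFex)
open Pool.Agent.Helper28.WK (Tw evw)
open Pool.Agent.Helper4.TL Pool.Agent.Helper93.TLE

/-- equal values are mapped to equal values -/
private theorem pair {F G : ℤ → ℤ → ℂ} {a b c d : ℤ} (h : EqC (act a b c d F) G)
    {x y z w : ℤ} (hv : x ≠ 0 ∨ y ≠ 0) (hw : z ≠ 0 ∨ w ≠ 0) (h0 : G x y = G z w) :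
    F (a * x + b * y) (c * x + d * y) = F (a * z + b * w) (c * z + d * w) := by
  have e := h.diff hv hw
  rw [h0, sub_self] at e
  exact sub_eq_zero.1 e

private theorem five {x y : ℤ} (h : x ≠ 0 ∨ y ≠ 0) : x ≠ 0 ∨ 5 * y ≠ 0 := by
  rcases h with h | h
  · exact Or.inl h
  · exact Or.inr (by omega)

/-- the thirty representatives -/
private def L : List (ℤ × ℤ × ℤ × ℤ) :=
  [(1, 0, 0, 1), (1, 1, 0, 1), (1, -1, 0, 1), (1, 2, 0, 1), (1, -2, 0, 1),
   (0, -1, 1, 0), (0, -1, 1, 1), (0, -1, 1, -1), (0, -1, 1, 2), (0, -1, 1, -2),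
   (1, 0, 1, 1), (1, 0, -1, 1), (1, 0, 2, 1), (1, 0, -2, 1),
   (1, 1, -1, 0), (1, 1, 1, 2), (1, 1, -2, -1), (1, 1, -3, -2), (2, -1, 1, 0),
   (1, 2, -1, -1), (1, -3, 1, -2), (2, -1, -1, 1), (2, 1, -1, 0), (2, 1, 1, 1),
   (1, -2, -1, 3), (1, -2, 1, -1), (1, -1, 1, 0), (1, -1, -2, 3), (1, -1, 2, -1),
   (1, -1, -1, 2)]

set_option maxRecDepth 100000 in
private lemma cls : ∀ p q r s : ZMod 5, p * s - q * r = 1 → ∃ t ∈ L,
    q * (t.1 : ZMod 5) - p * (t.2.1 : ZMod 5) = 0 ∧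
      r * (t.2.2.2 : ZMod 5) - s * (t.2.2.1 : ZMod 5) = 0 := by decide

private lemma dvd5 {n : ℤ} : (5 : ℤ) ∣ n ↔ (n : ZMod 5) = 0 :=
  (ZMod.intCast_zmod_eq_zero_iff_dvd n 5).symm

/-- invariant relation -/
private structure Inv (F : ℤ → ℤ → ℂ) : Prop where
  hom : Homog F
  gam : ∀ a b c d : ℤ, a * d - 25 * b * c = 1 → ∀ x y z w : ℤ, (x ≠ 0 ∨ y ≠ 0) →
    (z ≠ 0 ∨ w ≠ 0) → F x y = F z w →
    F (a * x + 5 * b * y) (5 * c * x + d * y) = F (a * z + 5 * b * w) (5 * c * z + d * w)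
  st : ∀ x y z w : ℤ, (x ≠ 0 ∨ y ≠ 0) → (z ≠ 0 ∨ w ≠ 0) → F x y = F z w →
    F (-x) y = F (-z) w
  sw : ∀ x y z w : ℤ, (x ≠ 0 ∨ y ≠ 0) → (z ≠ 0 ∨ w ≠ 0) → F x y = F z w →
    F y x = F w z

private theorem Inv.neg {F : ℤ → ℤ → ℂ} (h : Inv F) {x y : ℤ} (hv : x ≠ 0 ∨ y ≠ 0) :
    F (-x) (-y) = F x y := by
  have := h.hom (-1) x y (by norm_num) hv
  rw [neg_one_mul, neg_one_mul] at this
  exact this

private theorem one {F : ℤ → ℤ → ℂ} (h : Inv F) {r1 r2 r3 r4 : ℤ}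
    (hr : r1 * r4 - r2 * r3 = 1) (h0 : F r1 r3 = F r2 r4)
    {p q r s : ℤ} (hd : p * s - q * r = 1) (e1 : (5 : ℤ) ∣ q * r1 - p * r2)
    (e2 : (5 : ℤ) ∣ r * r4 - s * r3) : F p r = F q s := by
  obtain ⟨b, hb⟩ := e1
  obtain ⟨c, hc⟩ := e2
  have hdet : (p * r4 - q * r3) * (s * r1 - r * r2) - 25 * b * c = 1 := by
    have : 25 * b * c = (q * r1 - p * r2) * (r * r4 - s * r3) := by rw [hb, hc]; ring
    rw [this]
    linear_combination (p * s - q * r) * hr + hd
  have n1 : r1 ≠ 0 ∨ r3 ≠ 0 := by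
    by_contra hcon
    push Not at hcon
    rw [hcon.1, hcon.2] at hr
    simp at hr
  have n2 : r2 ≠ 0 ∨ r4 ≠ 0 := by
    by_contra hcon
    push Not at hcon
    rw [hcon.1, hcon.2] at hr
    simp at hr
  have e := h.gam _ b c _ hdet r1 r3 r2 r4 n1 n2 h0
  have g1 : (p * r4 - q * r3) * r1 + 5 * b * r3 = p := by
    linear_combination p * hr - r3 * hb
  have g2 : 5 * c * r1 + (s * r1 - r * r2) * r3 = r := by
    linear_combination r * hr - r1 * hc
  have g3 : (p * r4 - q * r3) * r2 + 5 * b * r4 = q := by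
    linear_combination q * hr - r4 * hb
  have g4 : 5 * c * r2 + (s * r1 - r * r2) * r4 = s := by
    linear_combination s * hr - r2 * hc
  rw [g1, g2, g3, g4] at e
  exact e

private theorem main {F : ℤ → ℤ → ℂ} (h : Inv F) {κ : ℂ} (k0 : F 1 0 = κ) (k1 : F 1 1 = κ)
    (k2 : F 2 1 = κ) (hfar : StFar) : EqC F 0 := by
  have a0 : F (-1) 0 = κ := by
    have := h.neg (x := 1) (y := 0) (by norm_num)
    norm_num at this
    rw [this, k0]
  have a1 : F (-1) 1 = κ := by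
    have := h.st 1 1 1 0 (by norm_num) (by norm_num) (k1.trans k0.symm)
    rw [this, a0]
  have a2 : F (-2) 1 = κ := by
    have := h.st 2 1 1 0 (by norm_num) (by norm_num) (k2.trans k0.symm)
    rw [this, a0]
  have b0 : F 0 1 = κ := by
    have := h.sw 1 0 1 1 (by norm_num) (by norm_num) (k0.trans k1.symm)
    rw [this, k1]
  have sw : ∀ x y : ℤ, (x ≠ 0 ∨ y ≠ 0) → F x y = κ → F y x = κ := by
    intro x y hv hx
    rw [h.sw x y 1 0 hv (by norm_num) (hx.trans k0.symm), b0]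
  have st : ∀ x y : ℤ, (x ≠ 0 ∨ y ≠ 0) → F x y = κ → F (-x) y = κ := by
    intro x y hv hx
    rw [h.st x y 1 0 hv (by norm_num) (hx.trans k0.symm), a0]
  have ng : ∀ x y : ℤ, (x ≠ 0 ∨ y ≠ 0) → F x y = κ → F (-x) (-y) = κ := by
    intro x y hv hx
    rw [h.neg hv, hx]
  have b1 : F 1 2 = κ := sw 2 1 (by norm_num) k2
  have b2 : F (-1) 2 = κ := st 1 2 (by norm_num) b1
  have c3 : F 3 1 = κ := by
    have := h.gam 1 1 0 1 (by norm_num) (-2) 1 1 0 (by norm_num) (by norm_num)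
      (a2.trans k0.symm)
    norm_num at this
    rw [this, k0]
  have c4 : F 1 3 = κ := sw 3 1 (by norm_num) c3
  have c5 : F (-1) 3 = κ := st 1 3 (by norm_num) c4
  have d1 : F 2 3 = κ := by
    have := h.gam 3 (-1) 1 (-8) (by norm_num) 1 1 2 1 (by norm_num) (by norm_num)
      (k1.trans k2.symm)
    norm_num at this
    rw [b1] at this
    have e := ng (-2) (-3) (by norm_num) this
    norm_num at e
    exact e
  have d2 : F 3 2 = κ := sw 2 3 (by norm_num) d1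
  have d3 : F (-2) 3 = κ := st 2 3 (by norm_num) d1
  refine hfar ℂ _ F h.hom fun p q r s hd => ?_
  have m0 := ng _ _ (by norm_num) k0
  have m1 := ng _ _ (by norm_num) b0
  have m2 := ng _ _ (by norm_num) k1
  have m3 := ng _ _ (by norm_num) a1
  have m4 := ng _ _ (by norm_num) k2
  have m5 := ng _ _ (by norm_num) a2
  have m6 := ng _ _ (by norm_num) b1
  have m7 := ng _ _ (by norm_num) b2
  have m8 := ng _ _ (by norm_num) c5
  have m9 := ng _ _ (by norm_num) d2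
  have m10 := ng _ _ (by norm_num) d3
  simp only [neg_neg, neg_zero] at m0 m1 m2 m3 m4 m5 m6 m7 m8 m9 m10
  have hL : ∀ t ∈ L, t.1 * t.2.2.2 - t.2.1 * t.2.2.1 = 1 ∧ F t.1 t.2.2.1 = κ ∧
      F t.2.1 t.2.2.2 = κ := by
    intro t ht
    simp only [L, List.mem_cons, List.not_mem_nil, or_false] at ht
    rcases ht with rfl | rfl | rfl | rfl | rfl | rfl | rfl | rfl | rfl | rfl | rfl | rfl | rfl |
      rfl | rfl | rfl | rfl | rfl | rfl | rfl | rfl | rfl | rfl | rfl | rfl | rfl | rfl | rfl |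
      rfl | rfl <;>
    exact ⟨by norm_num, by assumption, by assumption⟩
  have hc : (p : ZMod 5) * s - q * r = 1 := by
    have h' := congrArg (Int.cast : ℤ → ZMod 5) hd
    push_cast at h'
    exact h'
  obtain ⟨t, htL, e1, e2⟩ := cls _ _ _ _ hc
  obtain ⟨f1, f2, f3⟩ := hL t htL
  exact one h f1 (f2.trans f3.symm) hd (dvd5.2 (by push_cast; exact e1))
    (dvd5.2 (by push_cast; exact e2))

/-- Module BS5. -/
theorem hBs5 : SEBs5 := by
  intro hfar K hS hW hst h1 h2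
  obtain ⟨hH, hG⟩ := hS
  obtain ⟨F, hF⟩ : ∃ F : ℤ → ℤ → ℂ, ∀ x y, F x y = K x (5 * y) := ⟨fun x y => K x (5 * y),
    fun _ _ => rfl⟩
  have st : ∀ x y z w : ℤ, (x ≠ 0 ∨ y ≠ 0) → (z ≠ 0 ∨ w ≠ 0) → F x y = F z w →
      F (-x) y = F (-z) w := by
    intro x y z w hv hw h0
    rw [hF, hF] at h0 ⊢
    have e := pair hst (five hv) (five hw) h0
    norm_num at e
    exact e
  have sw : ∀ x y z w : ℤ, (x ≠ 0 ∨ y ≠ 0) → (z ≠ 0 ∨ w ≠ 0) → F x y = F z w →
      F y x = F w z := by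
    intro x y z w hv hw h0
    have h0' := h0
    rw [hF, hF] at h0
    have e := pair (G := -K) hW (five hv) (five hw) (by
      simp only [Pi.neg_apply]
      rw [h0])
    have q1 : ∀ x y : ℤ, (x ≠ 0 ∨ y ≠ 0) →
        K (0 * x + -1 * (5 * y)) ((5 : ℤ) ^ 2 * x + 0 * (5 * y)) = F (-y) x := by
      intro x y hv
      rw [hF]
      have := hH 5 (-y) (5 * x) (by norm_num) (by omega)
      rw [← this]
      congr 1 <;> ring
    rw [q1 x y hv, q1 z w hw] at e
    have e' := st (-y) x (-w) z (by omega) (by omega) e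
    rw [neg_neg, neg_neg] at e'
    exact e'
  have hI : Inv F := by
    refine ⟨?_, ?_, st, sw⟩
    · intro k p q hk hpq
      rw [hF, hF]
      have := hH k p (5 * q) hk (five hpq)
      rw [← this]
      congr 1; ring
    · intro a b c d hd x y z w hv hw h0
      rw [hF, hF] at h0 ⊢
      have e := pair (hG a b (25 * c) d (by linear_combination hd) (by simp)
        ⟨c, by norm_num⟩) (five hv) (five hw) (by
          simp only [Pi.smul_apply]
          rw [h0])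
      have q1 : ∀ x y : ℤ, K (a * x + b * (5 * y)) (25 * c * x + d * (5 * y)) =
          K (a * x + 5 * b * y) (5 * (5 * c * x + d * y)) := by
        intro x y
        congr 1 <;> ring
      rw [q1, q1] at e
      exact e
  have hc : EqC F 0 := by
    refine main hI (κ := K 1 0) ?_ ?_ ?_ hfar
    · rw [hF]; norm_num
    · rw [hF, h1]; norm_num
    · rw [hF, h1, h2]; norm_num
  obtain ⟨c, hc⟩ := hc
  refine ⟨c, fun p q hpq => ?_⟩
  have e1 := hc (5 * p) q (by omega)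
  rw [hF] at e1
  have e2 := hH 5 p q (by norm_num) hpq
  rw [← e2, e1]
  simp

end Pool.Agent.Helper16.TLE
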